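import Pool.Agent.Work.MP_6cbae3_an.NonBaireDefs

/-!
# Spaces without a continuous norm

Let `f` be a continuous convex function on an open convex subset `D` of `E × ℝ`.  If `E` has no
continuous norm, then `D` and `f` are invariant under the translations by the multiples of `(v, 0)`
for some `v ≠ 0` in `E`.  So `f` is the composition of a continuous convex function on an open
convex subset of `E` with an open continuous linear map from `E × ℝ` onto `E`.
-/

set_option autoImplicit false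

open Set Topology Filter
open Pool.Agent.Results.MP_6cbae3_an.NonBaire

namespace Pool.Agent.Work.MP_6cbae3_an_helper78

section inv

variable {F : Type*} [AddCommGroup F] [Module ℝ F] [TopologicalSpace F] [IsTopologicalAddGroup F]
  [ContinuousSMul ℝ F] {D : Set F} {f : F → ℝ} {z₀ w : F} {M : ℝ}

/-- If `D` contains a line parallel to `w`, then `D` is invariant under the translations by the
multiples of `w`, and a convex function that is bounded above on such a line does not increase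
under these translations. -/
theorem le_of_line (hD : IsOpen D) (hf : ConvexOn ℝ D f)
    (h : ∀ c : ℝ, z₀ + c • w ∈ D ∧ f (z₀ + c • w) ≤ M) {z : F} (hz : z ∈ D) (c : ℝ) :
    z + c • w ∈ D ∧ f (z + c • w) ≤ f z := by
  -- a point `y` of `D` with `z = (1 - l) y + l z₀`
  obtain ⟨l, hl0, hl1, hy⟩ : ∃ l : ℝ, 0 < l ∧ l < 1 ∧ (1 - l)⁻¹ • (z - l • z₀) ∈ D := by
    have ht : ContinuousAt (fun l : ℝ => (1 - l)⁻¹ • (z - l • z₀)) 0 := by
      apply ContinuousAt.smul
      · apply ContinuousAt.inv₀ (by fun_prop)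
        norm_num
      · fun_prop
    have h1 : ∀ᶠ l in 𝓝 (0 : ℝ), (1 - l)⁻¹ • (z - l • z₀) ∈ D := by
      apply ht.eventually (hD.mem_nhds _)
      simpa using hz
    obtain ⟨δ, hδ, h2⟩ := Metric.eventually_nhds_iff.mp h1
    refine ⟨min (δ / 2) (1 / 2), by positivity, lt_of_le_of_lt (min_le_right _ _) (by norm_num),
      h2 ?_⟩
    rw [Real.dist_eq, sub_zero, abs_of_pos (by positivity)]
    exact lt_of_le_of_lt (min_le_left _ _) (by linarith)
  set y : F := (1 - l)⁻¹ • (z - l • z₀) with hydef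
  have hl1' : (1 - l) ≠ 0 := by linarith
  have hzy : ∀ c : ℝ, z + c • w = (1 - l) • y + l • (z₀ + (c / l) • w) := by
    intro c
    rw [hydef, smul_smul, mul_inv_cancel₀ hl1', one_smul, smul_add, smul_smul,
      mul_div_cancel₀ _ hl0.ne']
    abel
  have hmem : ∀ c : ℝ, z + c • w ∈ D := by
    intro c
    rw [hzy c]
    exact hf.1 hy (h _).1 (by linarith) hl0.le (by ring)
  have hbd : ∀ c : ℝ, f (z + c • w) ≤ (1 - l) * f y + l * M := by
    intro c
    rw [hzy c]
    refine (hf.2 hy (h _).1 (by linarith) hl0.le (by ring)).trans ?_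
    have h1 := (h (c / l)).2
    simp only [smul_eq_mul]
    nlinarith
  refine ⟨hmem c, ?_⟩
  by_contra hcon
  push Not at hcon
  set M' : ℝ := (1 - l) * f y + l * M with hM'
  obtain ⟨n, hn⟩ := exists_nat_gt ((M' - f z) / (f (z + c • w) - f z))
  have hd : 0 < f (z + c • w) - f z := by linarith
  rw [div_lt_iff₀ hd] at hn
  have hn00 : (0 : ℝ) ≤ n := Nat.cast_nonneg n
  have hn0 : (0 : ℝ) < n + 1 := by positivity
  have h3 : z + c • w = (1 - ((n : ℝ) + 1)⁻¹) • z + ((n : ℝ) + 1)⁻¹ •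
      (z + (((n : ℝ) + 1) * c) • w) := by
    rw [smul_add, smul_smul, ← mul_assoc, inv_mul_cancel₀ hn0.ne', one_mul, sub_smul, one_smul]
    abel
  have hinv1 : ((n : ℝ) + 1)⁻¹ ≤ 1 := inv_le_one_of_one_le₀ (by linarith)
  have hinv0 : (0 : ℝ) ≤ ((n : ℝ) + 1)⁻¹ := by positivity
  have h4 := hf.2 hz (hmem (((n : ℝ) + 1) * c)) (sub_nonneg.mpr hinv1) hinv0
    (sub_add_cancel 1 (((n : ℝ) + 1)⁻¹))
  rw [← h3] at h4
  have h5 := hbd (((n : ℝ) + 1) * c)
  simp only [smul_eq_mul] at h4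
  have h6 : ((n : ℝ) + 1) * (f (z + c • w) - f z) ≤ f (z + (((n : ℝ) + 1) * c) • w) - f z := by
    have h7 : f (z + c • w) - f z ≤
        ((n : ℝ) + 1)⁻¹ * (f (z + (((n : ℝ) + 1) * c) • w) - f z) := by
      linarith
    calc ((n : ℝ) + 1) * (f (z + c • w) - f z)
        ≤ ((n : ℝ) + 1) * (((n : ℝ) + 1)⁻¹ * (f (z + (((n : ℝ) + 1) * c) • w) - f z)) :=
          mul_le_mul_of_nonneg_left h7 hn0.le
      _ = f (z + (((n : ℝ) + 1) * c) • w) - f z := by
          rw [← mul_assoc, mul_inv_cancel₀ hn0.ne', one_mul]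
  nlinarith

/-- A convex function that is bounded above on a line parallel to `w` is invariant under the
translations by the multiples of `w`. -/
theorem invariant_of_line (hD : IsOpen D) (hf : ConvexOn ℝ D f)
    (h : ∀ c : ℝ, z₀ + c • w ∈ D ∧ f (z₀ + c • w) ≤ M) {z : F} (hz : z ∈ D) (c : ℝ) :
    z + c • w ∈ D ∧ f (z + c • w) = f z := by
  obtain ⟨h1, h2⟩ := le_of_line hD hf h hz c
  refine ⟨h1, le_antisymm h2 ?_⟩
  have h3 := (le_of_line hD hf h h1 (-c)).2
  rwa [add_assoc, ← add_smul, add_neg_cancel, zero_smul, add_zero] at h3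

/-- A continuous function on an open set is bounded above near each point, and this is controlled
by a continuous seminorm. -/
theorem exists_seminorm [LocallyConvexSpace ℝ F] (hD : IsOpen D) (hfc : ContinuousOn f D)
    (hz₀ : z₀ ∈ D) :
    ∃ q : Seminorm ℝ F, Continuous q ∧ ∀ u, q u = 0 → z₀ + u ∈ D ∧ f (z₀ + u) ≤ f z₀ + 1 := by
  have hU : {y | y ∈ D ∧ f y ≤ f z₀ + 1} ∈ 𝓝 z₀ := by
    have h2 : ContinuousAt f z₀ := hfc.continuousAt (hD.mem_nhds hz₀)
    have h1 : ∀ᶠ y in 𝓝 z₀, f y < f z₀ + 1 := h2.eventually_lt continuousAt_const (by linarith)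
    exact Filter.inter_mem (hD.mem_nhds hz₀) (h1.mono fun y hy => hy.le)
  have hU0 : {u : F | z₀ + u ∈ {y | y ∈ D ∧ f y ≤ f z₀ + 1}} ∈ 𝓝 (0 : F) := by
    have : Tendsto (fun u : F => z₀ + u) (𝓝 0) (𝓝 z₀) := by
      have h : Continuous fun u : F => z₀ + u := by fun_prop
      simpa using h.tendsto 0
    exact this hU
  obtain ⟨W, ⟨hW0, hWo, hWac⟩, hWsub⟩ := (nhds_hasBasis_absConvex_open ℝ F).mem_iff.mp hU0
  have hWn : W ∈ 𝓝 (0 : F) := hWo.mem_nhds hW0
  have hWc : Convex ℝ W := hWac.2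
  have hWb : Balanced ℝ W := hWac.1
  have hWa : Absorbent ℝ W := absorbent_nhds_zero hWn
  refine ⟨gaugeSeminorm hWb hWc hWa, continuous_gauge hWc hWn, fun u hu => ?_⟩
  have h1 := gaugeSeminorm_ball_one (hs₀ := hWb) (hs₁ := hWc) (hs₂ := hWa) hWo
  have h2 : u ∈ W := by
    rw [← h1, Seminorm.mem_ball, sub_zero, hu]
    exact one_pos
  exact hWsub h2

end inv

section diff

variable {F : Type*} [AddCommGroup F] [Module ℝ F] [TopologicalSpace F] [IsTopologicalAddGroup F]
  [ContinuousSMul ℝ F] {E : Type*} [AddCommGroup E] [Module ℝ E] [TopologicalSpace E]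

omit [ContinuousSMul ℝ F] in
/-- Small multiples of a bounded set. -/
theorem exists_small {B : Set F} (hB : Bornology.IsVonNBounded ℝ B) {U : Set F} {z : F}
    (hU : IsOpen U) (hz : z ∈ U) :
    ∃ δ : ℝ, 0 < δ ∧ ∀ t : ℝ, |t| < δ → ∀ h ∈ B, z + t • h ∈ U := by
  have hnhds : {w : F | z + w ∈ U} ∈ 𝓝 (0 : F) := by
    have : Tendsto (fun w : F => z + w) (𝓝 0) (𝓝 z) := by
      have h : Continuous fun w : F => z + w := by fun_prop
      simpa using h.tendsto 0
    exact this (hU.mem_nhds hz)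
  have habs := hB hnhds
  rw [absorbs_iff_eventually_nhds_zero (mem_of_mem_nhds hnhds), Metric.eventually_nhds_iff] at habs
  obtain ⟨δ, hδ, hδ'⟩ := habs
  refine ⟨δ, hδ, fun t ht h hh => ?_⟩
  exact hδ' (y := t) (by rwa [dist_zero_right, Real.norm_eq_abs]) hh

/-- The pull-back of a Fréchet differentiable function along a continuous linear map. -/
theorem frechetDiffAt_comp {D : Set F} {f : F → ℝ} {g : E → ℝ} (hD : IsOpen D) (S : F →L[ℝ] E)
    (h : ∀ z ∈ D, f z = g (S z)) {z : F} (hz : z ∈ D) (hg : FrechetDiffAt g (S z)) :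
    FrechetDiffAt f z := by
  obtain ⟨g', hg'⟩ := hg
  refine ⟨g'.comp S, fun B hB ε hε => ?_⟩
  obtain ⟨δ₁, hδ₁, h₁⟩ := hg' (S '' B) (hB.image S) ε hε
  obtain ⟨δ₂, hδ₂, h₂⟩ := exists_small hB hD hz
  refine ⟨min δ₁ δ₂, lt_min hδ₁ hδ₂, fun t ht0 ht => ?_⟩
  obtain ⟨r, hr, h3⟩ := h₁ t ht0 (lt_of_lt_of_le ht (min_le_left _ _))
  refine ⟨r, hr, fun x hx => ?_⟩
  have h4 := h3 (S x) ⟨x, hx, rfl⟩
  rw [h _ (h₂ t (lt_of_lt_of_le ht (min_le_right _ _)) x hx), h z hz, map_add, map_smul]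
  exact h4

end diff

section main

variable {E : Type*} [AddCommGroup E] [Module ℝ E] [TopologicalSpace E] [IsTopologicalAddGroup E]
  [ContinuousSMul ℝ E] [LocallyConvexSpace ℝ E] [T2Space E]

/-- Every continuous convex function on an open convex subset of `E × ℝ` that is invariant in a
direction `(v, 0)` with `v ≠ 0` is Fréchet differentiable at the points of a dense `Gδ` subset. -/
theorem exists_of_invariant (hE : IsAsplund E) {D : Set (E × ℝ)} {f : E × ℝ → ℝ}
    (hDne : D.Nonempty) (hD : IsOpen D) (hf : ConvexOn ℝ D f) (hfc : ContinuousOn f D) {v : E}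
    (hv : v ≠ 0) (hinv : ∀ z ∈ D, ∀ c : ℝ, z + c • (v, (0 : ℝ)) ∈ D ∧
      f (z + c • (v, (0 : ℝ))) = f z) :
    ∃ G ⊆ D, IsGδ G ∧ D ⊆ closure G ∧ ∀ x ∈ G, FrechetDiffAt f x := by
  obtain ⟨l, hl⟩ := SeparatingDual.exists_eq_one (R := ℝ) hv
  let S : E × ℝ →L[ℝ] E := ContinuousLinearMap.fst ℝ E ℝ -
    (l.comp (ContinuousLinearMap.fst ℝ E ℝ)).smulRight v +
    (ContinuousLinearMap.snd ℝ E ℝ).smulRight v
  let T : E →L[ℝ] E × ℝ := (ContinuousLinearMap.id ℝ E - l.smulRight v).prod l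
  have hS : ∀ z : E × ℝ, S z = z.1 - l z.1 • v + z.2 • v := fun z => rfl
  have hT : ∀ x : E, T x = (x - l x • v, l x) := fun x => rfl
  have hST : ∀ x, S (T x) = x := by
    intro x
    rw [hS, hT]
    simp only [map_sub, map_smul, hl, smul_eq_mul, mul_one, sub_self, zero_smul, sub_zero]
    abel
  have hTS : ∀ z : E × ℝ, T (S z) = z + (-(l z.1)) • (v, (0 : ℝ)) := by
    intro z
    rw [hT, hS]
    have h1 : l (z.1 - l z.1 • v + z.2 • v) = z.2 := by
      simp only [map_add, map_sub, map_smul, hl, smul_eq_mul, mul_one, sub_self, zero_add]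
    rw [h1, Prod.smul_mk, smul_zero]
    apply Prod.ext
    · change z.1 - l z.1 • v + z.2 • v - z.2 • v = z.1 + -(l z.1) • v
      rw [add_sub_cancel_right, neg_smul, sub_eq_add_neg]
    · change z.2 = z.2 + 0
      rw [add_zero]
  have hopen : IsOpenMap S := by
    apply IsOpenMap.of_sections
    intro z
    refine ⟨fun y => z + T (y - S z), by fun_prop, by simp, fun y => ?_⟩
    rw [map_add, hST]
    abel
  have hDS : ∀ z ∈ D, T (S z) ∈ D := fun z hz => by
    rw [hTS]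
    exact (hinv z hz _).1
  have hSD : ∀ z, T (S z) ∈ D → z ∈ D := fun z hz => by
    have h1 := (hinv _ hz (l z.1)).1
    rw [hTS, add_assoc, ← add_smul, neg_add_cancel, zero_smul, add_zero] at h1
    exact h1
  obtain ⟨z₀, hz₀⟩ := hDne
  obtain ⟨G, hGD, hG, hGd, hGf⟩ := hE (T ⁻¹' D) (f ∘ T) ⟨S z₀, hDS z₀ hz₀⟩
    (hD.preimage T.continuous) (hf.1.linear_preimage (T : E →ₗ[ℝ] E × ℝ))
    (hf.comp_linearMap (T : E →ₗ[ℝ] E × ℝ)) (hfc.comp T.continuous.continuousOn fun x hx => hx)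
  refine ⟨S ⁻¹' G, fun z hz => hSD z (hGD hz), hG.preimage S.continuous, ?_, ?_⟩
  · intro z hz
    rw [← hopen.preimage_closure_eq_closure_preimage S.continuous]
    exact hGd (hDS z hz)
  · intro z hz
    refine frechetDiffAt_comp hD S (fun y hy => ?_) (hSD z (hGD hz)) (hGf _ hz)
    change f y = f (T (S y))
    rw [hTS]
    exact (hinv y hy _).2.symm

/-- If the Asplund space `E` has no continuous norm, then `E × ℝ` is Asplund. -/
theorem main (hE : IsAsplund E)
    (hN : ∀ p : Seminorm ℝ E, Continuous p → ∃ v : E, v ≠ 0 ∧ p v = 0) : IsAsplund (E × ℝ) := by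
  intro D f hDne hD _ hf hfc
  obtain ⟨z₀, hz₀⟩ := hDne
  obtain ⟨q, hq, hq'⟩ := exists_seminorm hD hfc hz₀
  obtain ⟨v, hv, hv'⟩ := hN (q.comp (LinearMap.inl ℝ E ℝ)) (by
    have : (⇑(q.comp (LinearMap.inl ℝ E ℝ)) : E → ℝ) = fun x => q (x, 0) := rfl
    rw [this]
    fun_prop)
  have hqv : q (v, 0) = 0 := hv'
  refine exists_of_invariant hE ⟨z₀, hz₀⟩ hD hf hfc hv fun z hz c => ?_
  refine invariant_of_line (z₀ := z₀) (M := f z₀ + 1) hD hf (fun c => hq' _ ?_) hz c
  rw [map_smul_eq_mul, hqv, mul_zero]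

end main

end Pool.Agent.Work.MP_6cbae3_an_helper78
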